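import Pool.Agent.W128.VA.Stm2

set_option autoImplicit false

namespace Pool.Agent.W692.VA.Str

open Finset Pool.Agent.W128.VA

variable {M : Type*} [AddCommGroup M] [Module ℂ M]

theorem down (a : ℤ → M) (c N0 : ℤ) (h0 : ∀ n, N0 ≤ n → a n = 0)
    (hs : ∀ n, c < n → (∀ m, n < m → a m = 0) → a n = 0) : ∀ n, c < n → a n = 0 := by
  have key : ∀ k : ℕ, ∀ n, N0 - k ≤ n → c < n → a n = 0 := by
    intro k
    induction k with
    | zero => intro n hn _; exact h0 n (by simpa using hn)
    | succ k ih =>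
      intro n hn hc
      apply hs n hc
      intro m hm
      apply ih m _ (by omega)
      push_cast at hn
      omega
  intro n hn
  exact key (N0 - n).toNat n (by omega) hn

theorem e_zero {gr : ℤ → Submodule ℂ M} {h e f : ℤ → Module.End ℂ M} (S : SlRel gr h e f)
    {j : ℤ} {w : M} (hw : w ∈ Om h j) : ∀ n : ℤ, -j - 1 < n → e n w = 0 := by
  obtain ⟨N0, hN0⟩ := S.tre w
  refine down (fun n => e n w) _ N0 hN0 ?_
  intro n hn hm
  have h1 := S.Te (n + 1) w 1 (fun i hi => hm _ (by omega)) (fun i hi => hw.1 _ (by omega))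
  simp only [range_one, sum_singleton, Nat.cast_zero, sub_zero, add_zero] at h1
  rw [hm (n + 1) (by omega), map_zero, zero_add, hw.2, map_smul,
    show n + 1 - 1 = n by ring] at h1
  have h2 : ((-((n + 1 : ℤ) : ℂ)) - (j : ℂ)) • e n w = 0 := by
    rw [sub_smul, h1, sub_self]
  rcases smul_eq_zero.1 h2 with h3 | h3
  · exfalso
    have h4 : ((n + 1 + j : ℤ) : ℂ) = 0 := by
      push_cast at h3 ⊢
      linear_combination -h3
    have h5 : (n + 1 + j : ℤ) = 0 := by exact_mod_cast h4
    omega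
  · exact h3

theorem f_zero {gr : ℤ → Submodule ℂ M} {h e f : ℤ → Module.End ℂ M} (S : SlRel gr h e f)
    {j : ℤ} {w : M} (hw : w ∈ Om h j) : ∀ n : ℤ, j - 1 < n → f n w = 0 := by
  obtain ⟨N0, hN0⟩ := S.trf w
  refine down (fun n => f n w) _ N0 hN0 ?_
  intro n hn hm
  have h1 := S.Tf (n + 1) w 1 (fun i hi => hm _ (by omega)) (fun i hi => hw.1 _ (by omega))
  simp only [range_one, sum_singleton, Nat.cast_zero, sub_zero, add_zero] at h1
  rw [hm (n + 1) (by omega), map_zero, zero_add, hw.2, map_smul,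
    show n + 1 - 1 = n by ring] at h1
  have h2 : ((-((n + 1 : ℤ) : ℂ)) + (j : ℂ)) • f n w = 0 := by
    rw [add_smul, h1, neg_add_cancel]
  rcases smul_eq_zero.1 h2 with h3 | h3
  · exfalso
    have h4 : ((n + 1 - j : ℤ) : ℂ) = 0 := by
      push_cast at h3 ⊢
      linear_combination -h3
    have h5 : (n + 1 - j : ℤ) = 0 := by exact_mod_cast h4
    omega
  · exact h3

theorem main.{u} : S_STR.{u} := by
  intro M _ _ gr h e f S j w hw
  have E := e_zero S hw
  have F := f_zero S hw
  refine ⟨E, F, ⟨fun n hn => ?_, ?_⟩, ?_, ⟨fun n hn => ?_, ?_⟩, ?_⟩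
  · have h1 := S.he n (-j - 1) w
    rw [hw.1 n hn, map_zero, sub_zero, E (n + (-j - 1)) (by omega), smul_zero] at h1
    exact h1
  · have h1 := S.he 0 (-j - 1) w
    rw [hw.2, map_smul, zero_add] at h1
    rw [sub_eq_iff_eq_add.1 h1, ← add_smul]
    push_cast
    ring_nf
  · have h1 := S.ef (-j - 1) (j + 1) w
    rw [F (j + 1) (by omega), map_zero, zero_sub, show -j - 1 + (j + 1) = 0 by ring, if_pos rfl,
      hw.2, ← add_smul] at h1
    have h2 : ((j : ℂ) + ((-j - 1 : ℤ) : ℂ)) = -1 := by push_cast; ring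
    rw [h2, neg_smul, one_smul] at h1
    exact neg_injective h1
  · have h1 := S.hf n (j - 1) w
    rw [hw.1 n hn, map_zero, sub_zero, F (n + (j - 1)) (by omega), smul_zero] at h1
    exact h1
  · have h1 := S.hf 0 (j - 1) w
    rw [hw.2, map_smul, zero_add] at h1
    rw [sub_eq_iff_eq_add.1 h1, ← add_smul]
    push_cast
    ring_nf
  · have h1 := S.ef (1 - j) (j - 1) w
    rw [E (1 - j) (by omega), map_zero, sub_zero, show 1 - j + (j - 1) = 0 by ring, if_pos rfl,
      hw.2, ← add_smul] at h1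
    have h2 : ((j : ℂ) + ((1 - j : ℤ) : ℂ)) = 1 := by push_cast; ring
    rw [h2, one_smul] at h1
    exact h1

end Pool.Agent.W692.VA.Str
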